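import Mathlib
import Pool.Agent.H950.ON.St

/-!
# FKG for the colour weight
-/

set_option autoImplicit false

namespace Pool.Agent.H591.ONf

open Pool.Agent.X136.ON (Hx Vx Ed Dir s1 s2)
open Pool.Agent.H950.ON (Nbr kc wl Ph bx S_kc S_loc S_fkg)

/-- the edges inside of a finite set of hexagons -/
theorem exists_EV (V : Finset Hx) : ∃ EV : Finset Ed, ∀ e, e ∈ EV ↔ s1 e ∈ V ∧ s2 e ∈ V := by
  classical
  refine ⟨(V.biUnion fun h => ({(h.1, h.2, Dir.A), (h.1, h.2, Dir.B), (h.1 - 1, h.2, Dir.C)} :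
    Finset Ed)).filter fun e => s1 e ∈ V ∧ s2 e ∈ V, ?_⟩
  intro e
  rw [Finset.mem_filter, Finset.mem_biUnion]
  constructor
  · exact fun h => h.2
  · intro h
    refine ⟨⟨s1 e, h.1, ?_⟩, h⟩
    obtain ⟨i, j, k⟩ := e
    cases k
    · simp [s1]
    · simp [s1]
    · simp [s1]

open Classical in
theorem wl_eq {V : Finset Hx} {EV : Finset Ed} (hEV : ∀ e, e ∈ EV ↔ s1 e ∈ V ∧ s2 e ∈ V)
    (A : Finset Hx) : wl V A = ∑ e ∈ EV, if ¬ (s1 e ∈ A ↔ s2 e ∈ A) then 1 else 0 := by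
  have h1 : {e : Ed | s1 e ∈ V ∧ s2 e ∈ V ∧ ¬ (s1 e ∈ A ↔ s2 e ∈ A)} =
      ↑(EV.filter fun e => ¬ (s1 e ∈ A ↔ s2 e ∈ A)) := by
    ext e
    rw [Finset.mem_coe, Finset.mem_filter, hEV]
    exact and_assoc.symm
  unfold wl
  rw [h1, Set.ncard_coe_finset, Finset.card_filter]

open Classical in
theorem wl_diff {V : Finset Hx} {EV : Finset Ed} (hEV : ∀ e, e ∈ EV ↔ s1 e ∈ V ∧ s2 e ∈ V)
    (A : Finset Hx) {u v : Hx} (hu : u ∉ A) (hv : v ∉ A) (huv : u ≠ v) :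
    wl V (insert u A) + wl V (insert v A) = wl V A + wl V (insert u (insert v A)) +
      2 * ∑ e ∈ EV, if (s1 e = u ∧ s2 e = v) ∨ (s1 e = v ∧ s2 e = u) then 1 else 0 := by
  rw [wl_eq hEV, wl_eq hEV, wl_eq hEV, wl_eq hEV, Finset.mul_sum, ← Finset.sum_add_distrib,
    ← Finset.sum_add_distrib, ← Finset.sum_add_distrib]
  refine Finset.sum_congr rfl fun e _ => ?_
  simp only [Finset.mem_insert]
  obtain ⟨a, ha⟩ : ∃ a, a = s1 e := ⟨_, rfl⟩
  obtain ⟨b, hb⟩ : ∃ b, b = s2 e := ⟨_, rfl⟩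
  rw [← ha, ← hb]
  by_cases h1 : a = u
  · subst h1
    by_cases h2 : b = a
    · subst h2
      simp [huv]
    · by_cases h3 : b = v
      · subst h3
        simp [huv, hu, hv, huv.symm]
      · by_cases h4 : b ∈ A <;> simp [h2, h3, h4, hu, huv]
  · by_cases h1' : a = v
    · subst h1'
      by_cases h2 : b = a
      · subst h2
        simp [huv.symm]
      · by_cases h3 : b = u
        · subst h3
          simp [huv, hu, hv, huv.symm]
        · by_cases h4 : b ∈ A <;> simp [h2, h3, h4, hv, huv.symm]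
    · by_cases h2 : b = u
      · subst h2
        by_cases h4 : a ∈ A <;> simp [h1, h1', h4, hu, huv]
      · by_cases h3 : b = v
        · subst h3
          by_cases h4 : a ∈ A <;> simp [h1, h1', h4, hv, huv.symm]
        · simp [h1, h1', h2, h3]

theorem mem_bx {l r c d : ℤ} {h : Hx} :
    h ∈ bx l r c d ↔ (l ≤ h.1 ∧ h.1 ≤ r) ∧ (c ≤ h.2 ∧ h.2 ≤ d) := by
  unfold bx
  rw [Finset.mem_product, Finset.mem_Icc, Finset.mem_Icc]

/-- two neighbours in the parallelogram have a common neighbour there -/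
theorem common {l r c d : ℤ} (hlr : l < r) (hcd : c < d) (e : Ed) (h1 : s1 e ∈ bx l r c d)
    (h2 : s2 e ∈ bx l r c d) :
    ∃ w ∈ bx l r c d, w ≠ s1 e ∧ w ≠ s2 e ∧ Nbr (s1 e) w ∧ Nbr (s2 e) w := by
  obtain ⟨i, j, k⟩ := e
  rw [mem_bx] at h1 h2
  cases k
  · simp only [s1, s2] at h1 h2 ⊢
    by_cases hj : j + 1 ≤ d
    · refine ⟨(i, j + 1), mem_bx.2 ⟨h1.1, by omega, hj⟩, ?_, ?_, ?_, ?_⟩
      · simp [Prod.ext_iff]
      · simp [Prod.ext_iff]
      · exact ⟨(i, j, Dir.B), Or.inl ⟨rfl, rfl⟩⟩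
      · exact ⟨(i, j, Dir.C), Or.inl ⟨rfl, rfl⟩⟩
    · refine ⟨(i + 1, j - 1), mem_bx.2 ⟨h2.1, by simp only; omega, by simp only; omega⟩,
        ?_, ?_, ?_, ?_⟩
      · simp [Prod.ext_iff]
      · simp [Prod.ext_iff]
      · exact ⟨(i, j - 1, Dir.C), Or.inr ⟨rfl, by simp [s2]⟩⟩
      · exact ⟨(i + 1, j - 1, Dir.B), Or.inr ⟨rfl, by simp [s2]⟩⟩
  · simp only [s1, s2] at h1 h2 ⊢
    by_cases hi : i + 1 ≤ r
    · refine ⟨(i + 1, j), mem_bx.2 ⟨⟨by simp only; omega, hi⟩, h1.2⟩, ?_, ?_, ?_, ?_⟩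
      · simp [Prod.ext_iff]
      · simp [Prod.ext_iff]
      · exact ⟨(i, j, Dir.A), Or.inl ⟨rfl, rfl⟩⟩
      · exact ⟨(i, j, Dir.C), Or.inr ⟨rfl, rfl⟩⟩
    · refine ⟨(i - 1, j + 1), mem_bx.2 ⟨⟨by simp only; omega, by simp only; omega⟩, h2.2⟩,
        ?_, ?_, ?_, ?_⟩
      · simp [Prod.ext_iff]
      · simp [Prod.ext_iff]
      · exact ⟨(i - 1, j, Dir.C), Or.inl ⟨by simp [s1], rfl⟩⟩
      · exact ⟨(i - 1, j + 1, Dir.A), Or.inr ⟨rfl, by simp [s2]⟩⟩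
  · simp only [s1, s2] at h1 h2 ⊢
    refine ⟨(i, j), mem_bx.2 ⟨h2.1, h1.2⟩, ?_, ?_, ?_, ?_⟩
    · simp [Prod.ext_iff]
    · simp [Prod.ext_iff]
    · exact ⟨(i, j, Dir.A), Or.inr ⟨rfl, rfl⟩⟩
    · exact ⟨(i, j, Dir.B), Or.inr ⟨rfl, rfl⟩⟩

theorem nbr_symm {u v : Hx} (h : Nbr u v) : Nbr v u := by
  obtain ⟨e, he⟩ := h
  exact ⟨e, he.symm⟩

/-- the numerical step -/
theorem num {n x : ℝ} (hn : 1 ≤ n) (hx : 0 < x) (hnx : n * x ^ 2 ≤ 1) {wu wv w0 w2 m : ℕ}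
    {ku kv k0 k2 : ℕ} (hw : wu + wv = w0 + w2 + 2 * m)
    (hk : ku + kv ≤ k0 + k2 ∨ (1 ≤ m ∧ ku + kv ≤ k0 + k2 + 1)) :
    x ^ wu * n ^ ku * (x ^ wv * n ^ kv) ≤ x ^ w0 * n ^ k0 * (x ^ w2 * n ^ k2) := by
  have hx2 : x ^ 2 ≤ 1 := by nlinarith [sq_nonneg x]
  have hn0 : 0 < n := by linarith
  have e1 : x ^ wu * n ^ ku * (x ^ wv * n ^ kv) =
      x ^ (w0 + w2) * ((x ^ 2) ^ m * n ^ (ku + kv)) := by
    calc x ^ wu * n ^ ku * (x ^ wv * n ^ kv) = x ^ (wu + wv) * n ^ (ku + kv) := by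
          rw [pow_add, pow_add]; ring
      _ = _ := by rw [hw, pow_add x (w0 + w2), pow_mul]; ring
  have e2 : x ^ w0 * n ^ k0 * (x ^ w2 * n ^ k2) = x ^ (w0 + w2) * n ^ (k0 + k2) := by
    rw [pow_add, pow_add]; ring
  rw [e1, e2]
  have hpos : 0 ≤ x ^ (w0 + w2) := by positivity
  refine mul_le_mul_of_nonneg_left ?_ hpos
  rcases hk with hk | ⟨hm, hk⟩
  · calc (x ^ 2) ^ m * n ^ (ku + kv) ≤ 1 * n ^ (k0 + k2) := by
          have h1 : (x ^ 2) ^ m ≤ 1 := pow_le_one₀ (by positivity) hx2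
          have h2 : n ^ (ku + kv) ≤ n ^ (k0 + k2) := pow_le_pow_right₀ hn hk
          exact mul_le_mul h1 h2 (by positivity) zero_le_one
      _ = _ := one_mul _
  · obtain ⟨m', rfl⟩ : ∃ m', m = m' + 1 := ⟨m - 1, by omega⟩
    have h1 : (x ^ 2) ^ m' ≤ 1 := pow_le_one₀ (by positivity) hx2
    have h2 : n ^ (ku + kv) ≤ n ^ (k0 + k2 + 1) := pow_le_pow_right₀ hn hk
    calc (x ^ 2) ^ (m' + 1) * n ^ (ku + kv) ≤ (x ^ 2) ^ (m' + 1) * n ^ (k0 + k2 + 1) :=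
          mul_le_mul_of_nonneg_left h2 (by positivity)
      _ = (x ^ 2) ^ m' * (n * x ^ 2) * n ^ (k0 + k2) := by rw [pow_succ, pow_succ]; ring
      _ ≤ 1 * 1 * n ^ (k0 + k2) := by
          refine mul_le_mul_of_nonneg_right ?_ (by positivity)
          exact mul_le_mul h1 hnx (by positivity) zero_le_one
      _ = _ := by ring

/-- **O6.** -/
theorem t_fkg (h4 : Pool.Agent.H950.ON.S_kc) (h5 : Pool.Agent.H950.ON.S_loc) :
    Pool.Agent.H950.ON.S_fkg := by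
  classical
  intro n x hn hx hnx l r c d hlr hcd
  have hn0 : 0 < n := by linarith
  refine h5 (bx l r c d) (Ph n x (bx l r c d)) (fun A _ => ?_) ?_
  · unfold Ph
    positivity
  · intro A hA u hu v hv huA hvA huv
    obtain ⟨EV, hEV⟩ := exists_EV (bx l r c d)
    obtain ⟨V, hV⟩ : ∃ V, V = bx l r c d := ⟨_, rfl⟩
    have hcommon := common hlr hcd
    rw [← hV] at hA hu hv hEV hcommon ⊢
    have hw := wl_diff hEV A huA hvA huv
    obtain ⟨m, hm⟩ : ∃ m, m = ∑ e ∈ EV,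
        if (s1 e = u ∧ s2 e = v) ∨ (s1 e = v ∧ s2 e = u) then 1 else 0 := ⟨_, rfl⟩
    rw [← hm] at hw
    obtain ⟨B, hB⟩ : ∃ B, B = V \ insert u (insert v A) := ⟨_, rfl⟩
    have huB : u ∉ B := by rw [hB]; simp
    have hvB : v ∉ B := by rw [hB]; simp
    have e1 : V \ insert u A = insert v B := by
      ext y
      rw [hB]
      simp only [Finset.mem_sdiff, Finset.mem_insert, not_or]
      constructor
      · rintro ⟨h1, h2, h3⟩
        by_cases h : y = v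
        · exact Or.inl h
        · exact Or.inr ⟨h1, h2, h, h3⟩
      · rintro (rfl | ⟨h1, h2, h3, h4⟩)
        · exact ⟨hv, huv.symm, hvA⟩
        · exact ⟨h1, h2, h4⟩
    have e2 : V \ insert v A = insert u B := by
      ext y
      rw [hB]
      simp only [Finset.mem_sdiff, Finset.mem_insert, not_or]
      constructor
      · rintro ⟨h1, h2, h3⟩
        by_cases h : y = u
        · exact Or.inl h
        · exact Or.inr ⟨h1, h, h2, h3⟩
      · rintro (rfl | ⟨h1, h2, h3, h4⟩)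
        · exact ⟨hu, huv, huA⟩
        · exact ⟨h1, h3, h4⟩
    have e3 : V \ A = insert u (insert v B) := by
      ext y
      rw [hB]
      simp only [Finset.mem_sdiff, Finset.mem_insert, not_or]
      constructor
      · rintro ⟨h1, h2⟩
        by_cases h : y = u
        · exact Or.inl h
        · by_cases h' : y = v
          · exact Or.inr (Or.inl h')
          · exact Or.inr (Or.inr ⟨h1, h, h', h2⟩)
      · rintro (rfl | rfl | ⟨h1, h2, h3, h4⟩)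
        · exact ⟨hu, huA⟩
        · exact ⟨hv, hvA⟩
        · exact ⟨h1, h4⟩
    obtain ⟨a1, a2⟩ := h4 A u v huA hvA huv
    obtain ⟨b1, b2⟩ := h4 B u v huB hvB huv
    unfold Ph
    rw [e1, e2, e3, ← hB]
    refine num hn hx hnx hw ?_
    by_cases hN : Nbr u v
    · right
      -- an edge between the two hexagons
      obtain ⟨e, he⟩ := hN
      have heV : e ∈ EV := by
        rw [hEV]
        rcases he with ⟨h1, h2⟩ | ⟨h1, h2⟩
        · rw [h1, h2]; exact ⟨hu, hv⟩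
        · rw [h1, h2]; exact ⟨hv, hu⟩
      have hm1 : 1 ≤ m := by
        rw [hm]
        have h6 := Finset.single_le_sum (f := fun e : Ed =>
          if (s1 e = u ∧ s2 e = v) ∨ (s1 e = v ∧ s2 e = u) then 1 else 0)
          (fun e _ => Nat.zero_le _) heV
        simp only [if_pos he] at h6
        exact h6
      refine ⟨hm1, ?_⟩
      obtain ⟨y, hyV, hy1, hy2, hy3, hy4⟩ := hcommon e ((hEV e).1 heV).1 ((hEV e).1 heV).2
      have hy : y ≠ u ∧ y ≠ v ∧ Nbr u y ∧ Nbr v y := by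
        rcases he with ⟨h1, h2⟩ | ⟨h1, h2⟩
        · rw [h1] at hy1 hy3; rw [h2] at hy2 hy4; exact ⟨hy1, hy2, hy3, hy4⟩
        · rw [h1] at hy1 hy3; rw [h2] at hy2 hy4; exact ⟨hy2, hy1, hy4, hy3⟩
      by_cases hyA : y ∈ A
      · have := a2 (Or.inr ⟨y, hyA, hy.2.2.1, hy.2.2.2⟩)
        omega
      · have hyB : y ∈ B := by
          rw [hB]
          simp only [Finset.mem_sdiff, Finset.mem_insert, not_or]
          exact ⟨hyV, hy.1, hy.2.1, hyA⟩
        have := b2 (Or.inr ⟨y, hyB, hy.2.2.1, hy.2.2.2⟩)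
        omega
    · left
      have h6 := a2 (Or.inl hN)
      have h7 := b2 (Or.inl hN)
      omega

end Pool.Agent.H591.ONf
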